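import Pool.Agent.Helper87.MD.Goals
import Pool.Agent.Helper54.Lang.DYAD

/-!
# Project MD (MP_c307ca_nt), packet BLA: small divisors `g`
-/

set_option autoImplicit false

open Finset Filter

namespace Pool.Agent.Helper50.MD

open Pool.Agent.Helper98.Lang
open Pool.Agent.Helper87.MD

/-- the pairs, counted by their products -/
lemma bl_count (hD : GDDM) {S : Finset (ℕ × ℕ)} {g R X : ℕ} {w : ℕ → ℝ} (hw : ∀ n, 0 ≤ w n)
    (hS : ∀ p ∈ S, 1 ≤ p.1 ∧ 1 ≤ p.2 ∧ R ≤ g * p.2 ∧ g * p.2 < 2 * R ∧ p.1 * p.2 ≤ X ∧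
      1 ≤ w (p.1 * p.2)) :
    (S.card : ℝ) ≤ ∑ x ∈ Icc 1 X, w x * DD x := by
  classical
  have h1 : (S.card : ℝ) ≤ ∑ p ∈ S, ∑ x ∈ Icc 1 X, if p.1 * p.2 = x then w x else 0 := by
    have h0 : (S.card : ℝ) = ∑ p ∈ S, (1 : ℝ) := by simp
    rw [h0]
    refine Finset.sum_le_sum fun p hp => ?_
    obtain ⟨a1, a2, -, -, a5, a6⟩ := hS p hp
    rw [Finset.sum_ite_eq, if_pos (mem_Icc.2 ⟨Nat.mul_pos a1 a2, a5⟩)]
    exact a6
  refine h1.trans ?_
  rw [Finset.sum_comm]
  refine Finset.sum_le_sum fun x hx => ?_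
  rw [mem_Icc] at hx
  rw [← Finset.sum_filter, Finset.sum_const, nsmul_eq_mul, mul_comm]
  refine mul_le_mul_of_nonneg_left ?_ (hw _)
  have h2 : (S.filter (fun p => p.1 * p.2 = x)).card =
      ((S.filter (fun p => p.1 * p.2 = x)).image Prod.snd).card := by
    rw [Finset.card_image_of_injOn]
    intro p hp q hq hpq
    rw [mem_coe, mem_filter] at hp hq
    have a1 := hS p hp.1
    have e : p.1 * p.2 = q.1 * p.2 := by
      rw [hp.2, ← hq.2]
      exact congrArg (fun t => q.1 * t) hpq.symm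
    exact Prod.ext (Nat.eq_of_mul_eq_mul_right a1.2.1 e) hpq
  rw [h2]
  have h3 := hD.1 x ((S.filter (fun p => p.1 * p.2 = x)).image Prod.snd) (by omega) ?_ ?_
  · exact_mod_cast h3
  · intro q hq
    rw [mem_image] at hq
    obtain ⟨p, hp, rfl⟩ := hq
    rw [mem_filter] at hp
    rw [Nat.mem_divisors]
    exact ⟨⟨p.1, by rw [← hp.2, mul_comm]⟩, by omega⟩
  · intro t ht u hu
    rw [mem_image] at ht hu
    obtain ⟨p, hp, rfl⟩ := ht
    obtain ⟨q, hq, rfl⟩ := hu
    rw [mem_filter] at hp hq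
    obtain ⟨-, -, -, b1, -, -⟩ := hS p hp.1
    obtain ⟨-, -, b2, -, -, -⟩ := hS q hq.1
    have h5 : g * p.2 ≤ g * (2 * q.2) := by
      calc g * p.2 ≤ 2 * R := b1.le
        _ ≤ 2 * (g * q.2) := Nat.mul_le_mul_left _ b2
        _ = g * (2 * q.2) := by ring
    have hg : 0 < g := by
      rcases Nat.eq_zero_or_pos g with h | h
      · rw [h, zero_mul] at b1 b2; omega
      · exact h
    have h6 : p.2 ≤ 2 * q.2 := Nat.le_of_mul_le_mul_left h5 hg
    have h6' : (p.2 : ℝ) ≤ 2 * q.2 := by exact_mod_cast h6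
    have h7 : (2 : ℝ) ≤ Real.exp 1 := by
      have := Real.add_one_le_exp (1 : ℝ); linarith
    have h8 : (0 : ℝ) ≤ q.2 := by positivity
    nlinarith

/-- **BLA.** -/
theorem mdBLA : GFej → GNT → GDDM → Pool.Agent.Helper87.MD.BlaStmt := by
  intro hF hNT hD ξ hξ ε η κ A c α hε hη hκ hκA hc hα0 hα1
  have hA : 0 < A := lt_of_lt_of_le hκ hκA
  have hmin : 0 < min κ (1 - α) := lt_min hκ (by linarith)
  set k : ℝ := min κ (1 - α) / 40 with hk
  have hk0 : 0 < k := by positivity
  have hkκ : 40 * k ≤ κ := by have := min_le_left κ (1 - α); linarith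
  have hkα : 40 * k ≤ 1 - α := by have := min_le_right κ (1 - α); linarith
  set δ : ℝ := k / (A + 2) with hδ
  have hδ0 : 0 < δ := by positivity
  have hδA : δ * (A + 2) = k := by rw [hδ]; field_simp
  have hδk : 2 * δ ≤ k := by
    calc 2 * δ = δ * 2 := by ring
      _ ≤ δ * (A + 2) := mul_le_mul_of_nonneg_left (by linarith) hδ0.le
      _ = k := hδA
  obtain ⟨C0, hC0, hFG⟩ := hF ξ hξ δ hδ0
  obtain ⟨C1, z0, hC1, hN1⟩ := hNT ⌈2 * (A + 2) / k⌉₊ η hη
  have hev : ∀ᶠ K : ℕ in atTop, max (z0 : ℝ) 1 ≤ (K : ℝ) ^ k ∧ 2 ≤ (K : ℝ) ^ (k / 2) ∧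
      A ^ (1 + ε) / (2 * c) * Real.log (K : ℝ) ^ (1 + ε) ≤ (K : ℝ) ^ k ∧
      C0 + 3 ≤ (K : ℝ) ^ k ∧ 3 ≤ K ∧ 1 / κ ≤ Real.log K ∧ 1 ≤ Real.log K := by
    filter_upwards [dy_pow (max z0 1) k hk0, dy_pow 2 (k / 2) (by positivity),
      dy_log (A ^ (1 + ε) / (2 * c)) (1 + ε) k hk0, dy_pow (C0 + 3) k hk0,
      eventually_ge_atTop 3,
      (tendsto_natCast_atTop_atTop.eventually
        (Real.tendsto_log_atTop.eventually_ge_atTop (1 / κ))),
      (tendsto_natCast_atTop_atTop.eventually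
        (Real.tendsto_log_atTop.eventually_ge_atTop 1))] with K h1 h2 h3 h4 h5 h6 h7
    exact ⟨h1, h2, h3, h4, h5, h6, h7⟩
  obtain ⟨N0, hN0⟩ := eventually_atTop.1 hev
  refine ⟨(8 * c + 24 * c * C1) / κ ^ (1 + ε), max N0 1, by positivity, ?_⟩
  intro M d s g R hK hs hsα hgd hgk hR1 hR2
  obtain ⟨e1, e2, e3, e4, e5, e6, e7⟩ := hN0 (M * d) (le_trans (le_max_left _ _) hK)
  have hKpos : 1 ≤ M * d := le_trans (le_max_right _ _) hK
  have hM1 : 1 ≤ M := by
    rcases Nat.eq_zero_or_pos M with h | h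
    · rw [h, zero_mul] at hKpos; omega
    · exact h
  have hd1 : 1 ≤ d := by
    rcases Nat.eq_zero_or_pos d with h | h
    · rw [h, mul_zero] at hKpos; omega
    · exact h
  have hg1 : 1 ≤ g := Nat.pos_of_dvd_of_pos hgd hd1
  set K : ℝ := ((M * d : ℕ) : ℝ) with hKdef
  have hK3 : (3 : ℝ) ≤ K := by rw [hKdef]; exact_mod_cast e5
  have hK0 : 0 < K := by linarith
  have hK1 : 1 ≤ K := by linarith
  have hlK : 0 < Real.log K := by linarith
  have hg0 : (0 : ℝ) < g := by exact_mod_cast hg1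
  have hg1' : (1 : ℝ) ≤ g := by exact_mod_cast hg1
  have hM0 : (0 : ℝ) < M := by exact_mod_cast hM1
  -- `D = d / g`
  set D : ℝ := ((d / g : ℕ) : ℝ) with hDdef
  have hD1 : 1 ≤ D := by
    rw [hDdef]
    exact_mod_cast Nat.div_pos (Nat.le_of_dvd hd1 hgd) hg1
  have hDg : D * g = d := by
    rw [hDdef]
    exact_mod_cast Nat.div_mul_cancel hgd
  have hKM : K = M * (D * g) := by rw [hDg, hKdef]; push_cast; ring
  -- `R`
  have hNκ : (1 : ℝ) < K ^ κ := Real.one_lt_rpow (by linarith) hκ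
  have hR3 : (1 : ℝ) < R := lt_of_lt_of_le hNκ hR1
  have hR0 : (0 : ℝ) < R := by linarith
  have hlR : 0 < Real.log R := Real.log_pos hR3
  have hlR1 : κ * Real.log K ≤ Real.log R := by
    have := Real.log_le_log (by positivity) hR1
    rwa [Real.log_rpow hK0] at this
  have hlR2 : Real.log R ≤ A * Real.log K := by
    have := Real.log_le_log hR0 hR2
    rwa [Real.log_rpow hK0] at this
  have hκN : 1 ≤ κ * Real.log K := by
    have := mul_le_mul_of_nonneg_left e6 hκ.le
    rwa [mul_one_div, div_self hκ.ne'] at this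
  have hLLR : LL ε R = Real.log (R : ℝ) ^ (1 + ε) := rfl
  set L : ℝ := Real.log (R : ℝ) ^ (1 + ε) with hL
  have hL1 : (κ * Real.log K) ^ (1 + ε) ≤ L :=
    Real.rpow_le_rpow (by positivity) hlR1 (by linarith)
  have hL0 : 1 ≤ L := le_trans (Real.one_le_rpow hκN (by linarith)) hL1
  have hLpos : 0 < L := by linarith
  have hL2 : L ≤ A ^ (1 + ε) * Real.log K ^ (1 + ε) := by
    rw [← Real.mul_rpow hA.le hlK.le]
    exact Real.rpow_le_rpow hlR.le hlR2 (by linarith)
  have hL3 : L ≤ 2 * c * K ^ k := by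
    have t1 : A ^ (1 + ε) / (2 * c) * Real.log K ^ (1 + ε) =
      (A ^ (1 + ε) * Real.log K ^ (1 + ε)) / (2 * c) := by ring
    rw [t1, div_le_iff₀ (by positivity)] at e3
    linarith
  have hRL : 0 < R * L := by positivity
  have heb : eb c ε d g R = c * D / (R * L) := rfl
  -- the conversion
  have conv : ∀ B : ℝ, 0 ≤ B → B * K * Real.log K ^ η / ((g : ℝ) ^ 2 * L) ≤
      B / κ ^ (1 + ε) * K * Real.log K ^ (η - 1 - ε) / (g : ℝ) ^ 2 := by
    intro B hB
    have t1 : B * K * Real.log K ^ η / ((g : ℝ) ^ 2 * L) ≤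
        B * K * Real.log K ^ η / ((g : ℝ) ^ 2 * (κ * Real.log K) ^ (1 + ε)) := by
      refine div_le_div_of_nonneg_left (by positivity) (by positivity) ?_
      exact mul_le_mul_of_nonneg_left hL1 (by positivity)
    refine t1.trans (le_of_eq ?_)
    rw [Real.mul_rpow hκ.le hlK.le]
    have t2 : Real.log K ^ η = Real.log K ^ (η - 1 - ε) * Real.log K ^ (1 + ε) := by
      rw [← Real.rpow_add hlK]
      congr 1
      ring
    rw [t2]
    have t3 : 0 < Real.log K ^ (1 + ε) := Real.rpow_pos_of_pos hlK _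
    have t4 : 0 < κ ^ (1 + ε) := Real.rpow_pos_of_pos hκ _
    field_simp
  have mono : ∀ B : ℝ, 0 ≤ B → B ≤ 8 * c + 24 * c * C1 →
      B / κ ^ (1 + ε) * K * Real.log K ^ (η - 1 - ε) / (g : ℝ) ^ 2 ≤
      (8 * c + 24 * c * C1) / κ ^ (1 + ε) * K * Real.log K ^ (η - 1 - ε) / (g : ℝ) ^ 2 := by
    intro B hB hB'
    have t4 : 0 < κ ^ (1 + ε) := Real.rpow_pos_of_pos hκ _
    have t5 : 0 < Real.log K ^ (η - 1 - ε) := Real.rpow_pos_of_pos hlK _
    gcongr
  rcases le_or_gt (1 / 4) (c * D / (R * L)) with hcase | hcase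
  · -- `eb ≥ 1/4`
    have hSS : (SS ξ c ε s M d g R : ℝ) ≤ M * (2 * R / g) := by
      have t1 : SS ξ c ε s M d g R ≤ ((Icc 1 M) ×ˢ (Icc 1 (2 * R / g))).card := by
        unfold SS
        refine Finset.card_le_card fun p hp => ?_
        rw [mem_filter, mem_product, mem_Icc, mem_Icc] at hp
        rw [mem_product, mem_Icc, mem_Icc]
        refine ⟨hp.1.1, hp.1.2.1, ?_⟩
        rw [Nat.le_div_iff_mul_le hg1, mul_comm]
        exact hp.2.2.1.le
      rw [card_product, Nat.card_Icc, Nat.card_Icc, Nat.add_sub_cancel, Nat.add_sub_cancel] at t1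
      have t2 : ((SS ξ c ε s M d g R : ℕ) : ℝ) ≤ ((M * (2 * R / g) : ℕ) : ℝ) := by
        exact_mod_cast t1
      refine t2.trans ?_
      rw [Nat.cast_mul]
      refine mul_le_mul_of_nonneg_left ?_ hM0.le
      refine Nat.cast_div_le.trans (le_of_eq ?_)
      push_cast
      ring
    have t3 : (M : ℝ) * (2 * R / g) ≤ (4 * (c * D / (R * L))) * (M * (2 * R / g)) := by
      refine le_mul_of_one_le_left (by positivity) (by linarith)
    have t4 : (4 * (c * D / (R * L))) * (M * (2 * R / g)) = 8 * c * K / ((g : ℝ) ^ 2 * L) := by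
      rw [hKM]
      field_simp
      ring
    have t5 : 8 * c * K / ((g : ℝ) ^ 2 * L) ≤
        8 * c * K * Real.log K ^ η / ((g : ℝ) ^ 2 * L) := by
      refine div_le_div_of_nonneg_right ?_ (by positivity)
      exact le_mul_of_one_le_right (by positivity) (Real.one_le_rpow e7 hη.le)
    calc (SS ξ c ε s M d g R : ℝ) ≤ 8 * c * K * Real.log K ^ η / ((g : ℝ) ^ 2 * L) := by
          linarith
      _ ≤ _ := conv (8 * c) (by positivity)
      _ ≤ _ := mono (8 * c) (by positivity) (by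
          have : 0 ≤ 24 * c * C1 := by positivity
          linarith)
  · -- `eb < 1/4`
    have heb0 : 0 < c * D / (R * L) := by positivity
    -- `H`
    set H : ℕ := ⌊1 / (2 * (c * D / (R * L)))⌋₊ with hH
    have hx1 : 1 ≤ 1 / (2 * (c * D / (R * L))) := by
      rw [le_div_iff₀ (by positivity)]; linarith
    have hH1 : 1 ≤ H := by rw [hH, Nat.one_le_floor_iff]; exact hx1
    have hH0 : (0 : ℝ) < H := by exact_mod_cast hH1
    have hHle : (H : ℝ) ≤ 1 / (2 * (c * D / (R * L))) := Nat.floor_le (by positivity)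
    have hHlt : 1 / (2 * (c * D / (R * L))) < H + 1 := Nat.lt_floor_add_one _
    have hHge : 1 / (4 * (c * D / (R * L))) ≤ H := by
      have t1 : 1 / (4 * (c * D / (R * L))) = 1 / (2 * (c * D / (R * L))) / 2 := by
        field_simp
        ring
      have t2 : (1 : ℝ) ≤ H := by exact_mod_cast hH1
      rw [t1]; linarith
    have hHeb : c * D / (R * L) ≤ 1 / (2 * H) := by
      rw [le_div_iff₀ (by positivity)]
      rw [le_div_iff₀ (by positivity)] at hHle
      linarith
    have hHc : 1 / (H : ℝ) ≤ 4 * (c * D / (R * L)) := by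
      rw [div_le_iff₀ hH0]
      rw [div_le_iff₀ (by positivity)] at hHge
      linarith
    have hHc2 : 2 * (c * D / (R * L)) ≤ 1 / (H : ℝ) := by
      rw [le_div_iff₀ hH0]
      rw [le_div_iff₀ (by positivity)] at hHle
      linarith
    have hHN : (H : ℝ) ≤ K ^ (A + 1) := by
      have t1 : 1 / (2 * (c * D / (R * L))) ≤ R * L / (2 * c) := by
        have t2 : 1 / (2 * (c * D / (R * L))) = R * L / (2 * c * D) := by
          field_simp
        rw [t2]
        refine div_le_div_of_nonneg_left (by positivity) (by positivity) ?_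
        exact le_mul_of_one_le_right (by positivity) hD1
      refine (hHle.trans t1).trans ?_
      rw [div_le_iff₀ (by positivity)]
      have t3 : K ^ k ≤ K := by
        calc K ^ k ≤ K ^ (1 : ℝ) := Real.rpow_le_rpow_of_exponent_le hK1 (by linarith)
          _ = K := Real.rpow_one _
      have t4 : L ≤ 2 * c * K := hL3.trans (mul_le_mul_of_nonneg_left t3 (by positivity))
      rw [Real.rpow_add hK0, Real.rpow_one]
      calc R * L ≤ K ^ A * (2 * c * K) := mul_le_mul hR2 t4 hLpos.le (by positivity)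
        _ = K ^ A * K * (2 * c) := by ring
    -- `z`
    set z : ℕ := ⌊K ^ k⌋₊ with hz
    have hzle : (z : ℝ) ≤ K ^ k := Nat.floor_le (by positivity)
    have hz0 : z0 ≤ z := Nat.le_floor ((le_max_left _ _).trans e1)
    have hz1 : 1 ≤ z := by
      have : ((1 : ℕ) : ℝ) ≤ K ^ k := by
        push_cast; exact (le_max_right _ _).trans e1
      exact Nat.le_floor this
    have hz1' : (1 : ℝ) ≤ z := by exact_mod_cast hz1
    have hz2 : K ^ (k / 2) ≤ z := by
      have t1 : K ^ k < z + 1 := Nat.lt_floor_add_one _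
      have t2 : K ^ k = K ^ (k / 2) * K ^ (k / 2) := by
        rw [← Real.rpow_add hK0]; congr 1; ring
      have t3 : K ^ (k / 2) * 2 ≤ K ^ (k / 2) * K ^ (k / 2) :=
        mul_le_mul_of_nonneg_left e2 (by positivity)
      linarith
    have hzK : (z : ℝ) ≤ K := by
      refine hzle.trans ?_
      calc K ^ k ≤ K ^ (1 : ℝ) := Real.rpow_le_rpow_of_exponent_le hK1 (by linarith)
        _ = K := Real.rpow_one _
    -- `X`
    set X : ℕ := 2 * M * R / g with hX
    have hRg : (g : ℝ) ≤ R := by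
      refine hgk.trans (le_trans ?_ hR1)
      exact Real.rpow_le_rpow_of_exponent_le hK1 (by linarith)
    have hXle : (X : ℝ) ≤ 2 * M * R / g := by
      rw [hX]
      refine Nat.cast_div_le.trans (le_of_eq ?_)
      push_cast
      ring
    have hXge : (M : ℝ) * R / g ≤ X := by
      have t1 : 2 * M * R < g * (X + 1) := Nat.lt_mul_div_succ _ hg1
      have t2 : (2 : ℝ) * M * R < g * (X + 1) := by exact_mod_cast t1
      have t3 : (2 : ℝ) * M * R / g < X + 1 := by
        rw [div_lt_iff₀ hg0]; linarith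
      have t4 : 1 ≤ (M : ℝ) * R / g := by
        rw [le_div_iff₀ hg0, one_mul]
        have hM1' : (1 : ℝ) ≤ M := by exact_mod_cast hM1
        calc (g : ℝ) = 1 * g := (one_mul _).symm
          _ ≤ M * R := mul_le_mul hM1' hRg hg0.le hM0.le
      have t5 : (2 : ℝ) * M * R / g = 2 * (M * R / g) := by ring
      rw [t5] at t3
      linarith
    have hXz : X ≤ z ^ ⌈2 * (A + 2) / k⌉₊ := by
      have t1 : (X : ℝ) ≤ (z : ℝ) ^ ⌈2 * (A + 2) / k⌉₊ := by
        have t2 : (X : ℝ) ≤ 2 * M * R := by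
          refine hXle.trans ?_
          exact div_le_self (by positivity) hg1'
        have t3 : (M : ℝ) ≤ K := by
          rw [hKM]
          exact le_mul_of_one_le_right hM0.le (one_le_mul_of_one_le_of_one_le hD1 hg1')
        have t4 : (2 : ℝ) * M * R ≤ K ^ (A + 2) := by
          rw [Real.rpow_add hK0, Real.rpow_ofNat]
          calc (2 : ℝ) * M * R ≤ K * K * K ^ A := by
                refine mul_le_mul ?_ hR2 hR0.le (mul_nonneg hK0.le hK0.le)
                exact mul_le_mul (by linarith) t3 hM0.le hK0.le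
            _ = K ^ A * K ^ 2 := by ring
        have t5 : K ^ (A + 2) ≤ (K ^ (k / 2)) ^ ⌈2 * (A + 2) / k⌉₊ := by
          rw [← Real.rpow_natCast, ← Real.rpow_mul hK0.le]
          refine Real.rpow_le_rpow_of_exponent_le hK1 ?_
          have t6 := Nat.le_ceil (2 * (A + 2) / k)
          have t7 : A + 2 = k / 2 * (2 * (A + 2) / k) := by field_simp
          calc A + 2 = k / 2 * (2 * (A + 2) / k) := t7
            _ ≤ _ := mul_le_mul_of_nonneg_left t6 (by positivity)
        exact (t2.trans t4).trans (t5.trans (pow_le_pow_left₀ (by positivity) hz2 _))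
      exact_mod_cast t1
    -- the majorant
    obtain ⟨G, c0, hG0, hG3, hG1, hc01, hc02, hGM⟩ := hFG H hH1
    have hs0 : (0 : ℝ) < s := by exact_mod_cast hs
    have hs1 : (1 : ℝ) ≤ s := by exact_mod_cast hs
    have hGM' : ∀ d' M' : ℕ, 1 ≤ d' → |∑ n ∈ Icc 1 M', G ((n : ℝ) * (d' * (s * ξ))) - c0 * M'| ≤
        (C0 * (s : ℝ) ^ (1 + δ)) * (H : ℝ) ^ δ * (d' : ℝ) ^ (1 + δ) := by
      intro d' M' hd'
      have t1 := hGM (d' * s) M' (Nat.mul_pos hd' hs)
      have t2 : ∀ n : ℕ, (n : ℝ) * (((d' * s : ℕ) : ℝ) * ξ) = (n : ℝ) * (d' * (s * ξ)) := by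
        intro n; push_cast; ring
      simp only [t2] at t1
      refine t1.trans (le_of_eq ?_)
      push_cast
      rw [Real.mul_rpow (by positivity) (by positivity)]
      ring
    set E : ℝ := K ^ (α + 6 * k) with hE
    have hE0 : 0 ≤ E := by positivity
    have hEb : ∀ m : ℕ, 1 ≤ m → m ≤ z ^ 2 →
        3 + (C0 * (s : ℝ) ^ (1 + δ)) * (H : ℝ) ^ δ * (m : ℝ) ^ (1 + δ) ≤ E := by
      intro m hm1 hm2
      have hm0 : (0 : ℝ) < m := by exact_mod_cast hm1
      have u1 : (s : ℝ) ^ (1 + δ) ≤ K ^ (α * (1 + δ)) := by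
        rw [Real.rpow_mul hK0.le]
        exact Real.rpow_le_rpow hs0.le hsα (by linarith)
      have u2 : (H : ℝ) ^ δ ≤ K ^ ((A + 1) * δ) := by
        rw [Real.rpow_mul hK0.le]
        exact Real.rpow_le_rpow hH0.le hHN hδ0.le
      have u3 : (m : ℝ) ≤ K ^ (2 * k) := by
        have : (m : ℝ) ≤ (z : ℝ) ^ 2 := by exact_mod_cast hm2
        refine this.trans ((pow_le_pow_left₀ (by positivity) hzle 2).trans (le_of_eq ?_))
        rw [← Real.rpow_natCast, ← Real.rpow_mul hK0.le]
        congr 1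
        push_cast
        ring
      have u4 : (m : ℝ) ^ (1 + δ) ≤ K ^ (2 * k * (1 + δ)) := by
        rw [Real.rpow_mul hK0.le]
        exact Real.rpow_le_rpow hm0.le u3 (by linarith)
      have u5 : (s : ℝ) ^ (1 + δ) * (H : ℝ) ^ δ * (m : ℝ) ^ (1 + δ) ≤
          K ^ (α * (1 + δ)) * K ^ ((A + 1) * δ) * K ^ (2 * k * (1 + δ)) := by
        refine mul_le_mul (mul_le_mul u1 u2 (by positivity) (by positivity)) u4 (by positivity)
          (by positivity)
      have u6 : K ^ (α * (1 + δ)) * K ^ ((A + 1) * δ) * K ^ (2 * k * (1 + δ)) ≤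
          K ^ (α + 5 * k) := by
        rw [← Real.rpow_add hK0, ← Real.rpow_add hK0]
        refine Real.rpow_le_rpow_of_exponent_le hK1 ?_
        have v1 : α * δ ≤ 1 * δ := mul_le_mul_of_nonneg_right hα1.le hδ0.le
        have v2 : (A + 1) * δ ≤ k := by
          calc (A + 1) * δ ≤ (A + 2) * δ := mul_le_mul_of_nonneg_right (by linarith) hδ0.le
            _ = δ * (A + 2) := by ring
            _ = k := hδA
        have v3 : 2 * k * δ ≤ k := by
          calc 2 * k * δ = k * (2 * δ) := by ring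
            _ ≤ k * 1 := mul_le_mul_of_nonneg_left (by linarith) hk0.le
            _ = k := mul_one k
        have v4 : α * (1 + δ) + (A + 1) * δ + 2 * k * (1 + δ) =
            α + α * δ + (A + 1) * δ + 2 * k + 2 * k * δ := by ring
        rw [v4]
        linarith
      have u7 : 1 ≤ K ^ (α + 5 * k) := Real.one_le_rpow hK1 (by positivity)
      have u8 : K ^ (α + 6 * k) = K ^ (α + 5 * k) * K ^ k := by
        rw [← Real.rpow_add hK0]; congr 1; ring
      rw [hE, u8]
      have u9 : K ^ (α + 5 * k) * (C0 + 3) ≤ K ^ (α + 5 * k) * K ^ k :=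
        mul_le_mul_of_nonneg_left e4 (by positivity)
      have u10 : (C0 * (s : ℝ) ^ (1 + δ)) * (H : ℝ) ^ δ * (m : ℝ) ^ (1 + δ) ≤
          C0 * K ^ (α + 5 * k) := by
        have := mul_le_mul_of_nonneg_left (u5.trans u6) hC0.le
        calc (C0 * (s : ℝ) ^ (1 + δ)) * (H : ℝ) ^ δ * (m : ℝ) ^ (1 + δ)
            = C0 * ((s : ℝ) ^ (1 + δ) * (H : ℝ) ^ δ * (m : ℝ) ^ (1 + δ)) := by ring
          _ ≤ _ := this
      have u11 : K ^ (α + 5 * k) * (C0 + 3) = C0 * K ^ (α + 5 * k) + 3 * K ^ (α + 5 * k) := by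
        ring
      rw [u11] at u9
      linarith
    have hlev : Lev X (fun n => G (n * (s * ξ))) (c0 * X) E z :=
      dy_lev hH1 hG0 hc01 hc02 hGM' hE0 hEb
    -- lower bound for `Y`
    have hc00 : 0 ≤ c0 := le_trans (by positivity) hc01
    have hYlow : K ^ (1 - 3 * k) ≤ c0 * X := by
      have t1 : 2 * (c * D / (R * L)) * (M * R / g) ≤ c0 * X :=
        mul_le_mul (hHc2.trans hc01) hXge (by positivity) hc00
      have t2 : 2 * (c * D / (R * L)) * (M * R / g) = 2 * c * K / ((g : ℝ) ^ 2 * L) := by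
        rw [hKM]
        field_simp
      have t3 : K ^ (1 - 3 * k) ≤ 2 * c * K / ((g : ℝ) ^ 2 * L) := by
        rw [le_div_iff₀ (by positivity)]
        have t4 : (g : ℝ) ^ 2 ≤ K ^ (2 * k) := by
          refine (pow_le_pow_left₀ hg0.le hgk 2).trans (le_of_eq ?_)
          rw [← Real.rpow_natCast, ← Real.rpow_mul hK0.le]
          congr 1
          push_cast
          ring
        have t5 : (g : ℝ) ^ 2 * L ≤ K ^ (2 * k) * (2 * c * K ^ k) :=
          mul_le_mul t4 hL3 hLpos.le (by positivity)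
        calc K ^ (1 - 3 * k) * ((g : ℝ) ^ 2 * L) ≤
              K ^ (1 - 3 * k) * (K ^ (2 * k) * (2 * c * K ^ k)) :=
              mul_le_mul_of_nonneg_left t5 (by positivity)
          _ = 2 * c * (K ^ (1 - 3 * k) * K ^ (2 * k) * K ^ k) := by ring
          _ = 2 * c * K := by
              rw [← Real.rpow_add hK0, ← Real.rpow_add hK0]
              have : 1 - 3 * k + 2 * k + k = 1 := by ring
              rw [this, Real.rpow_one]
      linarith
    have hz4 : (z : ℝ) ^ 4 ≤ K ^ (4 * k) := by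
      refine (pow_le_pow_left₀ (by positivity) hzle 4).trans (le_of_eq ?_)
      rw [← Real.rpow_natCast, ← Real.rpow_mul hK0.le]
      congr 1
      push_cast
      ring
    have h1 := hN1 z X (fun n => G (n * (s * ξ))) (c0 * X) E hz0 hXz hlev (fun n => hG3 _) ?_ ?_
    · have hcnt : (SS ξ c ε s M d g R : ℝ) ≤ ∑ n ∈ Icc 1 X, G (n * (s * ξ)) * DD n := by
        unfold SS
        refine bl_count hD (g := g) (R := R) (w := fun n : ℕ => G (n * (s * ξ)))
          (fun n => hG0 _) ?_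
        intro p hp
        rw [mem_filter, mem_product, mem_Icc, mem_Icc] at hp
        obtain ⟨⟨⟨a1, a2⟩, a3, a4⟩, a5, a6, a7⟩ := hp
        refine ⟨a1, a3, a5, a6, ?_, ?_⟩
        · rw [hX, Nat.le_div_iff_mul_le hg1]
          calc p.1 * p.2 * g = p.1 * (g * p.2) := by ring
            _ ≤ M * (2 * R) := Nat.mul_le_mul a2 a6.le
            _ = 2 * M * R := by ring
        · have t1 : (((p.1 * p.2 : ℕ) : ℝ) * (s * ξ)) = (s : ℝ) * p.1 * p.2 * ξ := by
            push_cast; ring
          change 1 ≤ G (((p.1 * p.2 : ℕ) : ℝ) * (s * ξ))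
          rw [t1]
          refine hG1 _ (a7.trans ?_)
          rw [heb]
          exact hHeb
      refine hcnt.trans (h1.trans ?_)
      have t1 : Real.log z ^ η ≤ Real.log K ^ η := by
        refine Real.rpow_le_rpow (Real.log_nonneg hz1') ?_ hη.le
        exact Real.log_le_log (by linarith) hzK
      have t2 : c0 * X ≤ 24 * c * K / ((g : ℝ) ^ 2 * L) := by
        have t3 : c0 ≤ 12 * (c * D / (R * L)) := by
          calc c0 ≤ 3 / H := hc02
            _ = 3 * (1 / H) := by ring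
            _ ≤ 3 * (4 * (c * D / (R * L))) := mul_le_mul_of_nonneg_left hHc (by norm_num)
            _ = _ := by ring
        calc c0 * X ≤ 12 * (c * D / (R * L)) * (2 * M * R / g) :=
              mul_le_mul t3 hXle (by positivity) (by positivity)
          _ = 24 * c * K / ((g : ℝ) ^ 2 * L) := by
              rw [hKM]
              field_simp
              ring
      calc C1 * (c0 * X) * Real.log z ^ η ≤
            C1 * (24 * c * K / ((g : ℝ) ^ 2 * L)) * Real.log K ^ η :=
            mul_le_mul (mul_le_mul_of_nonneg_left t2 hC1.le) t1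
              (Real.rpow_nonneg (Real.log_natCast_nonneg z) _) (by positivity)
        _ = 24 * c * C1 * K * Real.log K ^ η / ((g : ℝ) ^ 2 * L) := by ring
        _ ≤ _ := conv (24 * c * C1) (by positivity)
        _ ≤ _ := mono (24 * c * C1) (by positivity) (by linarith)
    · refine hz4.trans (le_trans ?_ hYlow)
      exact Real.rpow_le_rpow_of_exponent_le hK1 (by linarith)
    · calc (z : ℝ) ^ 4 * E ≤ K ^ (4 * k) * E := mul_le_mul_of_nonneg_right hz4 hE0
        _ = K ^ (4 * k + (α + 6 * k)) := by rw [hE, ← Real.rpow_add hK0]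
        _ ≤ K ^ (1 - 3 * k) := Real.rpow_le_rpow_of_exponent_le hK1 (by linarith)
        _ ≤ _ := hYlow

end Pool.Agent.Helper50.MD
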